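import Mathlib

namespace Pool.Agent.H.MP_f6aa92_nt

def a : ℕ → ℕ
  | 0 => 1
  | 1 => 1
  | 2 => 1
  | n + 3 => a (n + 2) + Nat.gcd (a (n + 2)) (a n)

def cons (q : ℕ) (h : List (ℕ × ℕ × ℕ)) : Bool :=
  (List.range q).any fun r => h.all fun x =>
    Nat.beq (Nat.gcd (r + x.1) (Nat.gcd x.2.1 q)) (Nat.gcd x.2.2 q)

def pruned (s : ℕ) (h : List (ℕ × ℕ × ℕ)) : Bool :=
  [2, 3, 5, 7, 8, 9, 11, 13, 17, 19, 23, 29, 31].any fun q =>
    !(Nat.beq (Nat.gcd q s) 1) && !(cons q h)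

def good (d : ℕ) : Bool := Nat.ble 1 d && Nat.ble d 89 && !(Nat.beq d 28) && !(Nat.beq d 30)

def chk : ℕ → ℕ → ℕ → ℕ → List (ℕ × ℕ × ℕ) → Bool
  | 0, _, _, _, _ => false
  | f + 1, d1, d2, off, h => (List.range (d1 + d2 + 1)).all fun d =>
      !(Nat.beq ((d1 + d2) % d) 0) || pruned (d1 + d2) ((off, d1 + d2, d) :: h) ||
        (good d && (if d2 = 1 ∧ d = 1 then !(cons 2 ((off + d, 2, 1) :: (off, d1 + d2, d) :: h))
          else chk f d2 d (off + d) ((off, d1 + d2, d) :: h)))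

lemma chk_ok : chk 40 1 1 0 [(0, 2, 2)] = true := by decide +kernel

lemma cons_true {q a0 : ℕ} (hq : 0 < q) {h : List (ℕ × ℕ × ℕ)}
    (hh : ∀ x ∈ h, Nat.gcd (a0 + x.1) x.2.1 = x.2.2) : cons q h = true := by
  simp only [cons, List.any_eq_true, List.mem_range, List.all_eq_true]
  refine ⟨a0 % q, Nat.mod_lt _ hq, fun x hx => ?_⟩
  rw [← hh x hx, Nat.gcd_assoc]
  have h1 : a0 % q + x.1 ≡ a0 + x.1 [MOD Nat.gcd x.2.1 q] :=
    ((Nat.mod_modEq a0 q).add_right _).of_dvd (Nat.gcd_dvd_right _ _)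
  rw [h1.gcd_eq]
  exact Nat.beq_refl _

lemma pruned_false {s a0 : ℕ} {h : List (ℕ × ℕ × ℕ)}
    (hh : ∀ x ∈ h, Nat.gcd (a0 + x.1) x.2.1 = x.2.2) : pruned s h = false := by
  simp only [pruned, List.any_eq_false]
  intro q hq
  have : 0 < q := by
    simp only [List.mem_cons, List.not_mem_nil, or_false] at hq
    omega
  simp [cons_true this hh]

def St (m d1 d2 : ℕ) : Prop := a (m + 1) = a m + d1 ∧ a (m + 2) = a (m + 1) + d2

def G (j : ℕ) : Prop := ∃ d, good d = true ∧ a (j + 3) = a (j + 2) + d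

lemma sound (a0 f : ℕ) : ∀ (d1 d2 off : ℕ) (h : List (ℕ × ℕ × ℕ)) (m : ℕ),
    chk f d1 d2 off h = true → 0 < d2 → St m d1 d2 → a (m + 2) = a0 + off →
    (∀ x ∈ h, Nat.gcd (a0 + x.1) x.2.1 = x.2.2) →
    ∃ k, m < k ∧ St k 1 1 ∧ Nat.gcd (a (k + 2)) 2 = 2 ∧ ∀ j, m ≤ j → j < k → G j := by
  induction f with
  | zero => intro d1 d2 off h m hc; simp [chk] at hc
  | succ f ih =>
    intro d1 d2 off h m hc h0 hs ha hh
    have hs2 : a (m + 2) = a m + (d1 + d2) := by rw [hs.2, hs.1]; ring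
    set d := Nat.gcd (a (m + 2)) (d1 + d2) with hd
    have hstep : a (m + 3) = a (m + 2) + d := by
      rw [a, hd]
      congr 1
      rw [hs2, Nat.gcd_comm, Nat.gcd_self_add_right, Nat.gcd_add_self_left]
    have hh2 : ∀ x ∈ (off, d1 + d2, d) :: h, Nat.gcd (a0 + x.1) x.2.1 = x.2.2 := by
      intro x hx
      rcases List.mem_cons.1 hx with rfl | hx
      · simp only; rw [← ha]
      · exact hh x hx
    have hdvd : d ∣ d1 + d2 := Nat.gcd_dvd_right _ _
    rw [chk, List.all_eq_true] at hc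
    have hmem : ∀ e, e ∣ d1 + d2 → e ≤ d1 + d2 → (∀ x ∈ (off, d1 + d2, e) :: h,
        Nat.gcd (a0 + x.1) x.2.1 = x.2.2) → good e = true ∧
        (if d2 = 1 ∧ e = 1 then !(cons 2 ((off + e, 2, 1) :: (off, d1 + d2, e) :: h))
          else chk f d2 e (off + e) ((off, d1 + d2, e) :: h)) = true := by
      intro e h1 h2 h3
      have := hc e (List.mem_range.2 (by omega))
      rw [pruned_false h3, Nat.mod_eq_zero_of_dvd h1] at this
      simpa using this
    have hpos : 0 < d1 + d2 := by omega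
    obtain ⟨g1, g2⟩ := hmem d hdvd (Nat.le_of_dvd hpos hdvd) hh2
    have hst : St (m + 1) d2 d := ⟨hs.2, hstep⟩
    have ha' : a (m + 1 + 2) = a0 + (off + d) := by rw [← add_assoc, ← ha]; exact hstep
    split_ifs at g2 with hcase
    · refine ⟨m + 1, by omega, by rw [hcase.1, hcase.2] at hst; exact hst, ?_, ?_⟩
      · by_contra hne
        have h1 : Nat.gcd (a (m + 1 + 2)) 2 = 1 := by
          rcases (Nat.dvd_prime Nat.prime_two).1 (Nat.gcd_dvd_right (a (m + 1 + 2)) 2) with h | h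
          · exact h
          · exact absurd h hne
        rw [cons_true (a0 := a0) (by norm_num)] at g2
        · simp at g2
        · intro x hx
          rcases List.mem_cons.1 hx with rfl | hx
          · simp only; rw [← ha', h1]
          · exact hh2 x hx
      · intro j h1 h2
        rw [show j = m by omega]
        exact ⟨d, g1, hstep⟩
    · obtain ⟨k, k1, k2, k3, k4⟩ := ih d2 d (off + d) _ (m + 1) g2 (Nat.pos_of_dvd_of_pos hdvd hpos) hst ha' hh2
      refine ⟨k, by omega, k2, k3, fun j h1 h2 => ?_⟩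
      by_cases hj : j = m
      · rw [hj]; exact ⟨d, g1, hstep⟩
      · exact k4 j (by omega) h2

lemma allG (N : ℕ) : ∃ k, N ≤ k ∧ St k 1 1 ∧ Nat.gcd (a (k + 2)) 2 = 2 ∧ ∀ j, j < k → G j := by
  induction N with
  | zero =>
    refine ⟨3, by omega, ⟨by decide, by decide⟩, by decide, fun j hj => ?_⟩
    interval_cases j <;> exact ⟨1, by decide, by decide⟩
  | succ N ih =>
    obtain ⟨k, k1, k2, k3, k4⟩ := ih
    obtain ⟨l, l1, l2, l3, l4⟩ := sound (a (k + 2)) 40 1 1 0 _ k chk_ok one_pos k2 rfl (by simpa using k3)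
    refine ⟨l, by omega, l2, l3, fun j hj => ?_⟩
    by_cases h : j < k
    · exact k4 j h
    · exact l4 j (by omega) hj

theorem main : (∀ n, a (n + 1) ≤ a n + 89 ∧ a (n + 1) ≠ a n + 28 ∧ a (n + 1) ≠ a n + 30) ∧
    ¬ ∀ d, 1 ≤ d → ∃ n, a (n + 1) = a n + d := by
  have key : ∀ n, a (n + 1) ≤ a n + 89 ∧ a (n + 1) ≠ a n + 28 ∧ a (n + 1) ≠ a n + 30 := by
    intro n
    match n with
    | 0 => decide
    | 1 => decide
    | j + 2 =>
      obtain ⟨k, k1, -, -, k4⟩ := allG (j + 1)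
      obtain ⟨d, d1, d2⟩ := k4 j (by omega)
      simp only [good, Bool.and_eq_true, Nat.ble_eq, Bool.not_eq_true'] at d1
      have e1 : d ≠ 28 := by rintro rfl; simp at d1
      have e2 : d ≠ 30 := by rintro rfl; simp at d1
      rw [show j + 2 + 1 = j + 3 by ring, d2]
      omega
  refine ⟨key, fun h => ?_⟩
  obtain ⟨n, hn⟩ := h 28 (by norm_num)
  exact (key n).2.1 hn

end Pool.Agent.H.MP_f6aa92_nt
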